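import Pool.Agent.Lib.H61AE.Had
import Pool.Agent.Lib.H61AE.Dens

/-!
# Almost-equidistant sets of `4 m` points in dimension `m + 1` (MP_5bdf33_co)

Two regular cross-polytopes of edge length `1` in parallel hyperplanes of `ℝ^(m+1)`, placed so that
the directions of their vertices are mutually unbiased (this needs a Hadamard matrix of order `m`)
and at distance `m^(-1/4)`: among three points some two are at distance `1`.
-/

open scoped BigOperators

namespace Pool.Agent.Results.MP_5bdf33_co.CrossPolytopes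

open Pool.Agent.Lib.H61AE

/-- among any three distinct points of `S` some two are at distance `1` -/
def AlmostEquidistant {d : ℕ} (S : Finset (EuclideanSpace ℝ (Fin d))) : Prop :=
  ∀ x ∈ S, ∀ y ∈ S, ∀ z ∈ S, x ≠ y → y ≠ z → x ≠ z → dist x y = 1 ∨ dist y z = 1 ∨ dist x z = 1

/-- the diameter of `S` is exactly `√2` -/
def DiamSqrtTwo {d : ℕ} (S : Finset (EuclideanSpace ℝ (Fin d))) : Prop :=
  (∀ x ∈ S, ∀ y ∈ S, dist x y ≤ Real.sqrt 2) ∧ ∃ x ∈ S, ∃ y ∈ S, dist x y = Real.sqrt 2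

lemma construct {m d : ℕ} (hd : m + 1 ≤ d) (hm : 0 < m) (hH : HadOrder m) :
    ∃ S : Finset (EuclideanSpace ℝ (Fin d)), AlmostEquidistant S ∧ S.card = 4 * m ∧
      (4 ≤ m → DiamSqrtTwo S) := by
  classical
  obtain ⟨H, hH⟩ := hH
  set b : Fin (m + 1) → EuclideanSpace ℝ (Fin d) :=
    fun i => EuclideanSpace.basisFun (Fin d) ℝ (Fin.castLE hd i) with hbdef
  have hb : Orthonormal ℝ b :=
    (EuclideanSpace.basisFun (Fin d) ℝ).orthonormal.comp _ (Fin.castLE_injective hd)
  set t : ℝ := Real.sqrt (1 / Real.sqrt m / 4) with ht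
  have hmr : (0 : ℝ) < m := by exact_mod_cast hm
  have ht4 : 4 * t ^ 2 = 1 / Real.sqrt m := by
    rw [ht, Real.sq_sqrt (by positivity)]
    ring
  have hinj := pt_injective hb hH ht4
  refine ⟨Finset.univ.image (pt b H t), ?_, ?_, ?_⟩
  · intro x hx y hy z hz hxy hyz hxz
    rw [Finset.mem_image] at hx hy hz
    obtain ⟨u, -, rfl⟩ := hx
    obtain ⟨v, -, rfl⟩ := hy
    obtain ⟨w, -, rfl⟩ := hz
    exact ae_index hb hH ht4 u v w (fun h => hxy (by rw [h])) (fun h => hyz (by rw [h]))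
      (fun h => hxz (by rw [h]))
  · rw [Finset.card_image_of_injective _ hinj]
    simp only [Finset.card_univ, Fintype.card_prod, Fintype.card_bool, Fintype.card_fin]
    ring
  · intro hm4
    constructor
    · intro x hx y hy
      rw [Finset.mem_image] at hx hy
      obtain ⟨⟨u, i, s⟩, -, rfl⟩ := hx
      obtain ⟨⟨v, j, r⟩, -, rfl⟩ := hy
      have h1 : (1 : ℝ) ≤ Real.sqrt 2 := by
        apply Real.le_sqrt_of_sq_le
        norm_num
      by_cases huv : u = v
      · subst huv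
        rw [dist_same hb hH]
        split_ifs
        · positivity
        · exact le_rfl
        · exact h1
      · cases u <;> cases v
        · exact absurd rfl huv
        · rw [dist_comm]
          exact dist_diff_le hb hH ht4 hm4 j i r s
        · exact dist_diff_le hb hH ht4 hm4 i j s r
        · exact absurd rfl huv
    · refine ⟨pt b H t (true, ⟨0, hm⟩, true), Finset.mem_image_of_mem _ (Finset.mem_univ _),
        pt b H t (true, ⟨0, hm⟩, false), Finset.mem_image_of_mem _ (Finset.mem_univ _), ?_⟩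
      rw [dist_same hb hH]
      simp

/-- For every order `m` of a Hadamard matrix there is an almost-equidistant set of `4 m` points in
`ℝ^d`, `d ≥ m + 1` (of diameter exactly `√2` if `m ≥ 4`); consequently, for every `ε > 0` and every
large `d` there is an almost-equidistant set of diameter `√2` in `ℝ^d` with at least `(4 - ε) d`
points. -/
theorem result :
    (∀ m d : ℕ, 0 < m → m + 1 ≤ d →
      (∃ H : Matrix (Fin m) (Fin m) ℤ, (∀ i j, H i j = 1 ∨ H i j = -1) ∧
        H * H.transpose = (m : ℤ) • (1 : Matrix (Fin m) (Fin m) ℤ)) →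
      ∃ S : Finset (EuclideanSpace ℝ (Fin d)), AlmostEquidistant S ∧ S.card = 4 * m ∧
        (4 ≤ m → DiamSqrtTwo S)) ∧
    (∀ ε : ℝ, 0 < ε → ∃ d₀ : ℕ, ∀ d : ℕ, d₀ ≤ d →
      ∃ S : Finset (EuclideanSpace ℝ (Fin d)), AlmostEquidistant S ∧ DiamSqrtTwo S ∧
        (4 - ε) * (d : ℝ) ≤ (S.card : ℝ)) := by
  refine ⟨fun m d hm hd hH => construct hd hm hH, ?_⟩
  intro ε hε
  -- reduce to small `ε`
  set δ : ℝ := ε / 8 with hδ
  have hδpos : 0 < δ := by positivity
  obtain ⟨N, hN⟩ := dense_two_twelve hδpos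
  -- `X = d - 1`
  obtain ⟨n₀, hn₀⟩ := exists_nat_ge (max (N + 1) (max (8 / ε + 2) (5 * (1 + δ) + 1)))
  refine ⟨n₀, ?_⟩
  intro d hd
  have hdr : (n₀ : ℝ) ≤ d := by exact_mod_cast hd
  have h1 : N + 1 ≤ (d : ℝ) := (le_max_left _ _).trans (hn₀.trans hdr)
  have h2 : 8 / ε + 2 ≤ (d : ℝ) :=
    (le_max_left _ _).trans ((le_max_right _ _).trans (hn₀.trans hdr))
  have h3 : 5 * (1 + δ) + 1 ≤ (d : ℝ) :=
    (le_max_right _ _).trans ((le_max_right _ _).trans (hn₀.trans hdr))
  obtain ⟨a, b, hab1, hab2⟩ := hN ((d : ℝ) - 1) (by linarith)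
  set m : ℕ := 2 ^ a * 12 ^ b with hm
  have hmr : (m : ℝ) = 2 ^ a * 12 ^ b := by rw [hm]; push_cast; ring
  rw [← hmr] at hab1 hab2
  have hmd : m + 1 ≤ d := by
    have : ((m + 1 : ℕ) : ℝ) ≤ d := by push_cast; linarith
    exact_mod_cast this
  have hm4 : 4 ≤ m := by
    have h5 : (4 : ℝ) ≤ m := by
      by_contra h
      push Not at h
      have : (1 + δ) * (m : ℝ) ≤ (1 + δ) * 4 := by
        apply mul_le_mul_of_nonneg_left h.le
        linarith
      nlinarith
    exact_mod_cast h5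
  obtain ⟨S, hS1, hS2, hS3⟩ := construct hmd (by omega) (had_two_twelve a b)
  refine ⟨S, hS1, hS3 hm4, ?_⟩
  rw [hS2]
  push_cast
  rw [← hmr] at *
  -- `d - 1 < (1 + δ) m` gives `(4 - ε) d ≤ 4 m`
  have hεd : 8 ≤ ε * d - 2 * ε := by
    have := mul_le_mul_of_nonneg_left h2 hε.le
    rw [mul_add, mul_div_cancel₀ _ hε.ne'] at this
    linarith
  have hδm : 8 * (δ * m) = ε * m := by rw [hδ]; ring
  have hmd' : (m : ℝ) ≤ d := by linarith
  have : ε * m ≤ ε * d := mul_le_mul_of_nonneg_left hmd' hε.le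
  nlinarith

end Pool.Agent.Results.MP_5bdf33_co.CrossPolytopes
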