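import Pool.Agent.Lib.H46AE.F4

/-!
# Almost-equidistant sets and the number of non-unit partners

An almost-equidistant set `V` in `ℝ ^ d` in which every point has at most `D` other points at a distance different from
`1` has at most `11 (d + 2) + 14 D (d + 2) ^ (1 / 3)` points.
-/

namespace Pool.Agent.Results.MP_5bdf33_co.DegreeBound

open Pool.Agent.Lib.Helper17.AE

/-- See the claim file. -/
theorem result {d : ℕ} (V : Finset (EuclideanSpace ℝ (Fin d)))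
    (hV : ∀ x ∈ V, ∀ y ∈ V, ∀ z ∈ V, x ≠ y → y ≠ z → x ≠ z →
      dist x y = 1 ∨ dist y z = 1 ∨ dist x z = 1) {D : ℕ}
    (hD : ∀ x ∈ V, ∀ S ⊆ V, (∀ y ∈ S, y ≠ x ∧ dist x y ≠ 1) → S.card ≤ D) :
    (V.card : ℝ) ≤ 11 * (d + 2) + 14 * D * ((d : ℝ) + 2) ^ (1 / 3 : ℝ) :=
  Pool.Agent.Lib.H46AE.degree_bound hV fun v hv =>
    hD v hv _ (fun _ hy => (mem_nbr.1 hy).1) fun _ hy => (mem_nbr.1 hy).2

end Pool.Agent.Results.MP_5bdf33_co.DegreeBound
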