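import Pool.Agent.Lib.H86AE.Num

/-! Almost-equidistant sets whose mean squared distance is close to one, and almost-equidistant
sets of diameter close to one. -/

namespace Pool.Agent.Results.MP_5bdf33_co.MeanSquare

open Finset

/-- See the claim file. -/
theorem result {d : ℕ} (V : Finset (EuclideanSpace ℝ (Fin d)))
    (hV : ∀ x ∈ V, ∀ y ∈ V, ∀ z ∈ V, x ≠ y → y ≠ z → x ≠ z →
      dist x y = 1 ∨ dist y z = 1 ∨ dist x z = 1) :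
    (∀ κ : ℝ, 0 ≤ κ → ∑ x ∈ V, ∑ y ∈ V.erase x, (dist x y ^ 2 - 1) ≤ κ * V.card →
      (V.card : ℝ) ≤ 12 * Real.sqrt (1 + κ) * (d + 1)) ∧
    (∀ δ : ℝ, 0 ≤ δ → (∀ x ∈ V, ∀ y ∈ V, dist x y ^ 2 ≤ 1 + δ) →
      (V.card : ℝ) ≤ 12 * Real.sqrt (1 + δ * (d + 1)) * (d + 1)) :=
  ⟨fun κ hκ h => Pool.Agent.Lib.H86AE.card_bound V hV κ hκ h,
    fun δ hδ h => Pool.Agent.Lib.H86AE.card_bound_diam V hV δ hδ h⟩

end Pool.Agent.Results.MP_5bdf33_co.MeanSquare
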