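import Pool.Agent.Lib.H46AE.B6
import Pool.Agent.Lib.H46AE.G1
import Pool.Agent.Lib.H46AE.G2

/-!
# Almost-equidistant sets with a distance gap

An almost-equidistant set `V` in `ℝ ^ d` (any three distinct points include two at distance `1`) all of whose other
distances satisfy `| |x - y| ^ 2 - 1 | ≥ c` has at most `2 d + 4 + 1568 / c ^ 4`, at most `17 (d + 2) / c` and, for
`d ≥ 1`, at most `(m + 4) (d + 1) - 2 (m + 1)` points, `m = ⌊1 / c ^ 2⌋`.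
-/

namespace Pool.Agent.Results.MP_5bdf33_co.SharpGap

/-- See the claim file. -/
theorem result {d : ℕ} (hd : 1 ≤ d) (V : Finset (EuclideanSpace ℝ (Fin d)))
    (hV : ∀ x ∈ V, ∀ y ∈ V, ∀ z ∈ V, x ≠ y → y ≠ z → x ≠ z →
      dist x y = 1 ∨ dist y z = 1 ∨ dist x z = 1) {c : ℝ} (hc : 0 < c) (hc1 : c ≤ 1)
    (hgap : ∀ x ∈ V, ∀ y ∈ V, x ≠ y → dist x y = 1 ∨ c ≤ |dist x y ^ 2 - 1|) :
    (V.card : ℝ) ≤ 2 * d + 4 + 1568 / c ^ 4 ∧ (V.card : ℝ) ≤ 17 * (d + 2) / c ∧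
      (V.card : ℝ) ≤ (⌊1 / c ^ 2⌋₊ + 4) * (d + 1) - 2 * (⌊1 / c ^ 2⌋₊ + 1) :=
  ⟨Pool.Agent.Lib.H46AE.gap_bound hV hc hc1 hgap,
    Pool.Agent.Lib.H46AE.gap_bound_lin hV hc hc1 hgap,
    Pool.Agent.Lib.H46AE.gap_bound_floor hd hV hc hgap⟩

end Pool.Agent.Results.MP_5bdf33_co.SharpGap
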